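import Pool.Agent.Helper93.EX.Defs4

/-!
# EX4, block F4 (c): from the open to the closed oval in the upper bound
-/

open MeasureTheory Real Set Filter Topology

set_option autoImplicit false

namespace Pool.Agent.Helper93.EX

open Pool.Agent.Helper93.AO Pool.Agent.Helper88.EX
open Pool.Agent.Helper22.AE (area)
open Pool.Agent.Helper22.OV (shf exists_shift)

private theorem two_le_pow41 {p : ℕ} (hp : 1 ≤ p) : (2 : ℝ) ≤ 2 ^ p := by
  calc (2 : ℝ) = 2 ^ 1 := (pow_one _).symm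
    _ ≤ 2 ^ p := pow_le_pow_right₀ (by norm_num) hp

private theorem fin41 (A B : ℝ) (P : ℝ → Prop) : volume {R : ℝ | R ∈ Icc A B ∧ P R} ≠ ⊤ :=
  ((measure_mono fun _ h => h.1).trans_lt (measure_Icc_lt_top (a := A) (b := B))).ne

/-- a smaller constant turns `≥` into `>` -/
private theorem LVc_le_LV41 (F : ℝ → ℝ) {t' t : ℝ} (h : t' < t) {A B : ℝ} (hA : 2 ≤ A) :
    LVc F t A B ≤ LV F t' A B := by
  unfold LVc LV
  refine measureReal_mono ?_ (fin41 A B _)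
  rintro R ⟨h1, h2⟩
  refine ⟨h1, lt_of_lt_of_le ?_ h2⟩
  exact mul_lt_mul_of_pos_right h (gR_pos (hA.trans h1.1))

/-- one constant between -/
private theorem exists_t41 (T : ℝ) {t : ℝ} (ht : 0 < t) {ε : ℝ} (hε : 0 < ε) :
    ∃ t' : ℝ, 0 < t' ∧ t' < t ∧ (t / T) ^ 4 - (t' / T) ^ 4 ≤ ε / 2 := by
  have hc : Continuous fun x : ℝ => (t / T) ^ 4 - (x / T) ^ 4 := by fun_prop
  have h1 : ∀ᶠ x in 𝓝 t, (t / T) ^ 4 - (x / T) ^ 4 < ε / 2 := by
    refine (hc.tendsto t).eventually_lt_const ?_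
    simp only [sub_self]
    positivity
  have h2 : ∀ᶠ x in 𝓝[<] t, (t / T) ^ 4 - (x / T) ^ 4 < ε / 2 := h1.filter_mono nhdsWithin_le_nhds
  have h3 : ∀ᶠ x in 𝓝[<] t, 0 < x := (lt_mem_nhds ht).filter_mono nhdsWithin_le_nhds
  obtain ⟨x, ⟨hx1, hx2⟩, hx3⟩ := ((h2.and h3).and self_mem_nhdsWithin).exists
  exact ⟨x, hx2, hx3, hx1.le⟩

/-- the comparison of the closed oval with the open one at `R + δ`, uniformly in `R` -/
private theorem unif41 {t' t : ℝ} (h : t' < t) (a : ℝ) {A B : ℝ} (hA : 2 ≤ A) :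
    ∃ δ₀ : ℝ, 0 < δ₀ ∧ ∀ δ : ℝ, 0 < δ → δ < δ₀ → ∀ R ∈ Icc A B, t' * gR (R + δ) + a * ((R + δ) ^ 2 - R ^ 2) < t * gR R := by
  have h0 : ∀ᶠ δ in 𝓝 (0 : ℝ), ∀ R ∈ Icc A B, t' * gR (R + |δ|) + a * ((R + |δ|) ^ 2 - R ^ 2) < t * gR R := by
    refine isCompact_Icc.eventually_forall_of_forall_eventually fun R hR => ?_
    have h2 : (2 : ℝ) ≤ R := hA.trans hR.1
    have hg1 : ContinuousAt (fun z : ℝ × ℝ => gR (z.2 + |z.1|)) ((0 : ℝ), R) := by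
      have e : ContinuousAt gR ((fun z : ℝ × ℝ => z.2 + |z.1|) ((0 : ℝ), R)) := by
        simp only [abs_zero, add_zero]
        exact gR_cont h2
      exact ContinuousAt.comp (f := fun z : ℝ × ℝ => z.2 + |z.1|) e (by fun_prop)
    have hg2 : ContinuousAt (fun z : ℝ × ℝ => gR z.2) ((0 : ℝ), R) := by
      have e : ContinuousAt gR ((fun z : ℝ × ℝ => z.2) ((0 : ℝ), R)) := gR_cont h2
      exact ContinuousAt.comp (f := fun z : ℝ × ℝ => z.2) e (by fun_prop)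
    have hc1 : ContinuousAt (fun z : ℝ × ℝ => t' * gR (z.2 + |z.1|) + a * ((z.2 + |z.1|) ^ 2 - z.2 ^ 2)) ((0 : ℝ), R) :=
      (continuousAt_const.mul hg1).add (by fun_prop)
    have hc2 : ContinuousAt (fun z : ℝ × ℝ => t * gR z.2) ((0 : ℝ), R) := continuousAt_const.mul hg2
    refine hc1.eventually_lt hc2 ?_
    simp only [abs_zero, add_zero, sub_self, mul_zero]
    exact mul_lt_mul_of_pos_right h (gR_pos h2)
  obtain ⟨δ₀, h1, h2⟩ := Metric.eventually_nhds_iff.1 h0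
  refine ⟨δ₀, h1, fun δ hδ hδ' R hR => ?_⟩
  have h3 := h2 (y := δ) (by rw [dist_zero_right, Real.norm_eq_abs, abs_of_pos hδ]; exact hδ') R hR
  rwa [abs_of_pos hδ] at h3

theorem close4 {H : ℝ → ℝ} (hO : IsOv H) {σ : ℝ} (hσ : σ = 1 ∨ σ = -1) {T : ℝ} (hT : 0 < T)
    (h : ∀ t : ℝ, 0 < t → ∀ ε : ℝ, 0 < ε → ∃ p₀ : ℕ, ∀ p : ℕ, p₀ ≤ p → ∀ c : ℝ × ℝ,
      LV (fun R => Es σ H c R) t (2 ^ p) (2 ^ (p + 1)) ≤ 2 ^ ((1 - (t / T) ^ 4 + ε) * p : ℝ)) :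
    ∀ t : ℝ, 0 < t → ∀ ε : ℝ, 0 < ε → ∃ p₀ : ℕ, ∀ p : ℕ, p₀ ≤ p → ∀ c : ℝ × ℝ,
      LVc (fun R => σ * Er idf H c R) t (2 ^ p) (2 ^ (p + 1)) ≤ 2 ^ ((1 - (t / T) ^ 4 + ε) * p : ℝ) := by
  intro t ht ε hε
  obtain ⟨t', ht0, htt, hε'⟩ := exists_t41 T ht hε
  obtain ⟨p₀, hp₀⟩ := h t' ht0 (ε / 2) (by positivity)
  refine ⟨max p₀ 1, fun p hp c => ?_⟩
  have hp1 : 1 ≤ p := (le_max_right _ _).trans hp
  have hA : (2 : ℝ) ≤ 2 ^ p := two_le_pow41 hp1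
  have hexp : (2 : ℝ) ^ ((1 - (t' / T) ^ 4 + ε / 2) * p : ℝ) ≤ 2 ^ ((1 - (t / T) ^ 4 + ε) * p : ℝ) := by
    refine Real.rpow_le_rpow_of_exponent_le (by norm_num) ?_
    refine mul_le_mul_of_nonneg_right ?_ (Nat.cast_nonneg p)
    linarith
  have hmain := fun c : ℝ × ℝ => (hp₀ p ((le_max_left _ _).trans hp) c).trans hexp
  rcases hσ with rfl | rfl
  · obtain ⟨v, hv⟩ := exists_shift hO.smooth hO.per hO.rho_pos
    obtain ⟨δ₀, hδ₀, hδ⟩ := unif41 htt (area H) (A := 2 ^ p) (B := 2 ^ (p + 1)) hA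
    refine le_of_forall_pos_le_add fun η hη => ?_
    obtain ⟨δ, hδ1, hδ2⟩ : ∃ δ : ℝ, 0 < δ ∧ δ < min δ₀ η := exists_between (lt_min hδ₀ hη)
    have hδ3 : δ < δ₀ := hδ2.trans_le (min_le_left _ _)
    have hδ4 : δ < η := hδ2.trans_le (min_le_right _ _)
    set c' : ℝ × ℝ := (c.1 + δ * v.1, c.2 + δ * v.2) with hc'
    have hsub : {R : ℝ | R ∈ Icc ((2 : ℝ) ^ p) (2 ^ (p + 1)) ∧ t * gR R ≤ 1 * Er idf H c R} ⊆
        (fun R => R + δ) ⁻¹' ({R : ℝ | R ∈ Icc ((2 : ℝ) ^ p) (2 ^ (p + 1)) ∧ t' * gR R < Es 1 H c' R} ∪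
          Icc (2 ^ (p + 1)) (2 ^ (p + 1) + δ)) := by
      rintro R ⟨h1, h2⟩
      simp only [mem_preimage, mem_union]
      rcases le_or_gt (R + δ) (2 ^ (p + 1)) with h3 | h3
      · left
        refine ⟨⟨by linarith [h1.1], h3⟩, ?_⟩
        rw [Es_one, ErO_idf]
        rw [one_mul, Er_idf] at h2
        have h4 : ((SC H c R).ncard : ℝ) ≤ ((SO H c' (R + δ)).ncard : ℝ) := by
          have h5 := SC_sub_SO hv.pos (c := c) (show R < R + δ by linarith)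
          rw [add_sub_cancel_left] at h5
          exact_mod_cast Set.ncard_le_ncard h5 (fin_SO _ _ _)
        have h6 := hδ δ hδ1 hδ3 R h1
        linarith
      · right
        exact ⟨h3.le, by linarith [h1.2]⟩
    calc LVc (fun R => 1 * Er idf H c R) t (2 ^ p) (2 ^ (p + 1))
        ≤ volume.real ((fun R => R + δ) ⁻¹' ({R : ℝ | R ∈ Icc ((2 : ℝ) ^ p) (2 ^ (p + 1)) ∧ t' * gR R < Es 1 H c' R} ∪
          Icc (2 ^ (p + 1)) (2 ^ (p + 1) + δ))) := by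
          refine measureReal_mono hsub ?_
          rw [measure_preimage_add_right]
          exact (measure_union_lt_top (lt_top_iff_ne_top.2 (fin41 _ _ _)) measure_Icc_lt_top).ne
      _ = volume.real ({R : ℝ | R ∈ Icc ((2 : ℝ) ^ p) (2 ^ (p + 1)) ∧ t' * gR R < Es 1 H c' R} ∪
          Icc (2 ^ (p + 1)) (2 ^ (p + 1) + δ)) := by
          unfold Measure.real
          rw [measure_preimage_add_right]
      _ ≤ volume.real {R : ℝ | R ∈ Icc ((2 : ℝ) ^ p) (2 ^ (p + 1)) ∧ t' * gR R < Es 1 H c' R} +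
          volume.real (Icc ((2 : ℝ) ^ (p + 1)) (2 ^ (p + 1) + δ)) := measureReal_union_le _ _
      _ ≤ 2 ^ ((1 - (t / T) ^ 4 + ε) * p : ℝ) + η := by
          refine add_le_add (hmain c') ?_
          rw [Real.volume_real_Icc, add_sub_cancel_left, max_eq_left hδ1.le]
          exact hδ4.le
  · refine le_trans ?_ (hmain c)
    refine (LVc_le_LV41 _ htt hA).trans (le_of_eq ?_)
    unfold LV
    simp only [Es_neg, neg_mul, one_mul]

end Pool.Agent.Helper93.EX
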