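import Pool.Agent.Helper93.EX.Defs
import Pool.Agent.Helper92.EO.Key
import Pool.Agent.Helper92.EO.Half
import Pool.Agent.Helper92.EO.Lat
import Pool.Agent.Helper92.EO.Ker
import Pool.Agent.Helper92.EO.Kb

/-!
# EX, block T1: the low frequencies

`hk_asymp`: the half-range integrals of the dilated domain (`key` without the kernel); `low_part`: the sum of the low frequencies is `sqrt R * Mx`.
-/

open MeasureTheory Real Set Filter Topology

set_option autoImplicit false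

namespace Pool.Agent.Helper41.EX

open Pool.Agent.Helper22.AE
open Pool.Agent.Helper92.EO (IsKer Li Lk hk key exists_ker W_le_one ft_half nk_neg nk_ge_one kset mem_kset lat_upper)
open Pool.Agent.Helper93.EX (fJ ak sn prim Mx)

private lemma lo_deriv_cd {H : ℝ → ℝ} (hH : ContDiff ℝ 2 H) : ContDiff ℝ 1 (deriv H) := by
  have h := (contDiff_succ_iff_deriv (n := 1) (f := H)).1 (by
    rw [one_add_one_eq_two]; exact hH)
  exact h.2.2

private lemma lo_rho_cont {H : ℝ → ℝ} (hH : ContDiff ℝ 2 H) : Continuous (rho H) := by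
  have h2 : Continuous (deriv (deriv H)) := (lo_deriv_cd hH).continuous_deriv (le_refl _)
  exact hH.continuous.add h2

private lemma lo_gph_cont {H : ℝ → ℝ} (hH : ContDiff ℝ 2 H) (k : ℤ × ℤ) : Continuous (gph H k) := by
  have h1 := hH.continuous
  have h2 := (lo_deriv_cd hH).continuous
  unfold gph
  fun_prop

private lemma lo_rho_mul (H : ℝ → ℝ) (r θ : ℝ) : rho (fun θ => r * H θ) θ = r * rho H θ := by
  have h1 : deriv (fun θ => r * H θ) = fun θ => r * deriv H θ := by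
    funext x
    rw [deriv_const_mul_field]
  unfold rho
  rw [h1, deriv_const_mul_field]
  ring

private lemma lo_gph_mul (H : ℝ → ℝ) (r : ℝ) (k : ℤ × ℤ) (α : ℝ) : gph (fun θ => r * H θ) k α = r * gph H k α := by
  unfold gph
  rw [deriv_const_mul_field]
  ring

private lemma lo_mul_supp {G : ℝ → ℝ} (hG : IsSupp G) {r : ℝ} (hr : 0 < r) : IsSupp (fun θ => r * G θ) := by
  refine ⟨contDiff_const.mul hG.smooth, fun θ => by simp only [hG.per θ], fun θ => mul_pos hr (hG.pos θ), fun θ => ?_⟩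
  have h1 := lo_rho_mul G r θ
  have h2 := mul_pos hr (hG.rho_pos θ)
  unfold rho at h1
  rw [h1]
  exact h2

/-- the half-range integrals, low frequencies -/
theorem hk_asymp {H : ℝ → ℝ} (hH : IsSupp H) {η : ℝ} (hη : 0 < η) :
    ∃ R₁ : ℝ, 1 ≤ R₁ ∧ ∀ R : ℝ, R₁ ≤ R → ∀ k : ℤ × ℤ, k ≠ 0 → nk k ≤ R ^ (1 / 4 : ℝ) →
      ‖hk (fun θ => R * H θ) k - (((R / nk k) ^ (1 / 2 : ℝ) * sqrt (rho H (tk k)) : ℝ) : ℂ) * ee (1 / 8 - R * (nk k * H (tk k)))‖ ≤
        η * (R / nk k) ^ (1 / 2 : ℝ) := by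
  obtain ⟨w, W, hw⟩ := exists_ker
  obtain ⟨R₁, hR₁, hkey⟩ := key hw hH hη
  refine ⟨R₁, hR₁, fun R hR k hk0 hkn => ?_⟩
  have hW0 : W 0 = 1 := by
    have h1 := hw.four 0
    have h2 : ∀ u : ℝ, ((w u : ℝ) : ℂ) * ee (-(0 * u)) = ((w u : ℝ) : ℂ) := by
      intro u
      simp [ee_zero]
    simp only [h2] at h1
    rw [integral_complex_ofReal, hw.int_one] at h1
    exact_mod_cast h1.symm
  have hWc : ∀ y : ℝ, Tendsto (fun K : ℝ => W (y / K)) atTop (𝓝 1) := by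
    intro y
    have h1 : Tendsto (fun K : ℝ => y / K) atTop (𝓝 0) := tendsto_const_nhds.div_atTop tendsto_id
    have h2 := (hw.smooth.continuous.tendsto 0).comp h1
    rw [hW0] at h2
    exact h2
  have hrc := lo_rho_cont hH.smooth
  have hgc := lo_gph_cont hH.smooth k
  have hLi : ∀ K : ℝ, Continuous (Li W H K R 0 k) := by
    intro K
    have h3 := hw.smooth.continuous
    unfold Li
    refine Continuous.mul ?_ ?_
    · apply Complex.continuous_ofReal.comp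
      fun_prop
    · apply ee_cont.comp
      fun_prop
  have t1 : Tendsto (fun K : ℝ => Lk W H K R 0 k) atTop (𝓝 (hk (fun θ => R * H θ) k)) := by
    unfold Lk hk
    refine intervalIntegral.tendsto_integral_filter_of_dominated_convergence (fun α => |R * rho H (tk k + α)|) ?_ ?_ ?_ ?_
    · exact Eventually.of_forall fun K => (hLi K).aestronglyMeasurable
    · refine Eventually.of_forall fun K => Eventually.of_forall fun α _ => ?_
      unfold Li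
      rw [norm_mul, ee_norm, mul_one, Complex.norm_real, Real.norm_eq_abs, abs_mul, abs_mul, add_zero]
      have h1 : |cos α| ≤ 1 := abs_cos_le_one α
      have h2 := W_le_one hw (nk k * gph H k α / K)
      have h3 := abs_nonneg (R * rho H (tk k + α))
      calc |cos α| * |R * rho H (tk k + α)| * |W (nk k * gph H k α / K)| ≤ 1 * |R * rho H (tk k + α)| * 1 := by
            gcongr
        _ = |R * rho H (tk k + α)| := by ring
    · apply Continuous.intervalIntegrable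
      fun_prop
    · refine Eventually.of_forall fun α _ => ?_
      have e : ∀ K : ℝ, Li W H K R 0 k α = ((W (nk k * gph H k α / K) : ℝ) : ℂ) * (((cos α * rho (fun θ => R * H θ) (tk k + α) : ℝ) : ℂ) *
          ee (-(nk k * gph (fun θ => R * H θ) k α))) := by
        intro K
        unfold Li
        rw [lo_rho_mul, lo_gph_mul, zero_mul, add_zero, add_zero]
        push_cast
        ring
      simp only [e]
      have h1 : Tendsto (fun K : ℝ => ((W (nk k * gph H k α / K) : ℝ) : ℂ)) atTop (𝓝 ((1 : ℝ) : ℂ)) :=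
        (Complex.continuous_ofReal.tendsto 1).comp (hWc _)
      have h2 := h1.mul_const (((cos α * rho (fun θ => R * H θ) (tk k + α) : ℝ) : ℂ) * ee (-(nk k * gph (fun θ => R * H θ) k α)))
      rw [Complex.ofReal_one, one_mul] at h2
      exact h2
  have t2 : Tendsto (fun K : ℝ => Pool.Agent.Helper92.EO.mk W H K R k) atTop
      (𝓝 ((((R / nk k) ^ (1 / 2 : ℝ) * sqrt (rho H (tk k)) : ℝ) : ℂ) * ee (1 / 8 - R * (nk k * H (tk k))))) := by
    unfold Pool.Agent.Helper92.EO.mk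
    refine Tendsto.mul_const _ ?_
    refine (Complex.continuous_ofReal.tendsto _).comp ?_
    have h1 := (hWc (nk k * H (tk k))).const_mul ((R / nk k) ^ (1 / 2 : ℝ) * sqrt (rho H (tk k)))
    rw [mul_one] at h1
    exact h1
  refine le_of_tendsto (t1.sub t2).norm ?_
  filter_upwards [eventually_ge_atTop (1 : ℝ)] with K hK
  have hR0 : 0 ≤ R := by linarith
  exact hkey R K 0 hR hK (by rw [abs_zero]; positivity) k hk0 hkn

/-- a symmetric sum of Fourier coefficients is real -/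
theorem sum_ft {G : ℝ → ℝ} (hG : IsSupp G) {L : Finset (ℤ × ℤ)} (h0 : ∀ k ∈ L, k ≠ 0) (hs : ∀ k ∈ L, -k ∈ L) (c : ℝ × ℝ) :
    ∑ k ∈ L, ft G k * ee (-((k.1 : ℝ) * c.1 + (k.2 : ℝ) * c.2)) =
      ((∑ k ∈ L, (Complex.I / ((π * nk k : ℝ) : ℂ) * hk G k * ee (-((k.1 : ℝ) * c.1 + (k.2 : ℝ) * c.2))).re : ℝ) : ℂ) := by
  obtain ⟨A, hA⟩ : ∃ A : ℤ × ℤ → ℂ, A = fun k => Complex.I / ((2 * π * nk k : ℝ) : ℂ) * hk G k * ee (-((k.1 : ℝ) * c.1 + (k.2 : ℝ) * c.2)) := ⟨_, rfl⟩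
  have e1 : ∀ k ∈ L, ft G k * ee (-((k.1 : ℝ) * c.1 + (k.2 : ℝ) * c.2)) = A k + (starRingEnd ℂ) (A (-k)) := by
    intro k hkL
    have hk0 := h0 k hkL
    have hn : (0 : ℝ) < nk k := by linarith [nk_ge_one hk0]
    have hn' : (nk k : ℂ) ≠ 0 := by exact_mod_cast hn.ne'
    have hp' : (π : ℂ) ≠ 0 := by exact_mod_cast pi_ne_zero
    rw [ft_half hG hk0, hA]
    simp only
    rw [map_mul, map_mul, map_div₀, Complex.conj_I, Complex.conj_ofReal, ← ee_neg, nk_neg]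
    have h3 : - -((((-k).1 : ℤ) : ℝ) * c.1 + (((-k).2 : ℤ) : ℝ) * c.2) = -((k.1 : ℝ) * c.1 + (k.2 : ℝ) * c.2) := by
      rw [Prod.fst_neg, Prod.snd_neg]
      push_cast
      ring
    rw [h3]
    have h4 : -(1 / (2 * (π : ℂ) * Complex.I * (nk k : ℂ))) = Complex.I / ((2 * π * nk k : ℝ) : ℂ) := by
      have h5 : Complex.I ≠ 0 := Complex.I_ne_zero
      push_cast
      field_simp
      rw [Complex.I_sq]
    rw [h4]
    ring
  rw [Finset.sum_congr rfl e1, Finset.sum_add_distrib]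
  have e2 : ∑ k ∈ L, (starRingEnd ℂ) (A (-k)) = (starRingEnd ℂ) (∑ k ∈ L, A k) := by
    rw [map_sum]
    exact Finset.sum_nbij' (fun k => -k) (fun k => -k) hs hs (fun k _ => neg_neg k) (fun k _ => neg_neg k) (fun k _ => rfl)
  rw [e2, Complex.add_conj]
  congr 1
  rw [Complex.re_sum, Finset.mul_sum]
  refine Finset.sum_congr rfl fun k hkL => ?_
  have hn : (0 : ℝ) < nk k := by linarith [nk_ge_one (h0 k hkL)]
  have hp := pi_pos
  rw [hA]
  simp only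
  have e3 : Complex.I / ((π * nk k : ℝ) : ℂ) * hk G k * ee (-((k.1 : ℝ) * c.1 + (k.2 : ℝ) * c.2)) =
      ((2 : ℝ) : ℂ) * (Complex.I / ((2 * π * nk k : ℝ) : ℂ) * hk G k * ee (-((k.1 : ℝ) * c.1 + (k.2 : ℝ) * c.2))) := by
    have hn' : (nk k : ℂ) ≠ 0 := by exact_mod_cast hn.ne'
    have hp' : (π : ℂ) ≠ 0 := by exact_mod_cast pi_ne_zero
    push_cast
    field_simp
  rw [e3, Complex.re_ofReal_mul]

/-- the term of the frequency `k` -/
private noncomputable def tt (H : ℝ → ℝ) (R : ℝ) (c : ℝ × ℝ) (k : ℤ × ℤ) : ℝ :=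
  1 / π * (ak H k * cos (2 * π * (R * (nk k * H (tk k)) + ((k.1 : ℝ) * c.1 + (k.2 : ℝ) * c.2)) - 3 * π / 4))

/-- the main value of the term of the frequency `k` -/
private lemma tt_eq (H : ℝ → ℝ) {R : ℝ} (hR : 0 ≤ R) (c : ℝ × ℝ) {k : ℤ × ℤ} (hk0 : k ≠ 0) :
    (Complex.I / ((π * nk k : ℝ) : ℂ) * ((((R / nk k) ^ (1 / 2 : ℝ) * sqrt (rho H (tk k)) : ℝ) : ℂ) * ee (1 / 8 - R * (nk k * H (tk k)))) *
      ee (-((k.1 : ℝ) * c.1 + (k.2 : ℝ) * c.2))).re = sqrt R * tt H R c k := by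
  have hn : (0 : ℝ) < nk k := by linarith [nk_ge_one hk0]
  have hp := pi_pos
  obtain ⟨x, hx⟩ : ∃ x, x = R * (nk k * H (tk k)) + ((k.1 : ℝ) * c.1 + (k.2 : ℝ) * c.2) := ⟨_, rfl⟩
  have e1 : Complex.I / ((π * nk k : ℝ) : ℂ) * ((((R / nk k) ^ (1 / 2 : ℝ) * sqrt (rho H (tk k)) : ℝ) : ℂ) * ee (1 / 8 - R * (nk k * H (tk k)))) *
      ee (-((k.1 : ℝ) * c.1 + (k.2 : ℝ) * c.2)) =
      (((1 / (π * nk k)) * ((R / nk k) ^ (1 / 2 : ℝ) * sqrt (rho H (tk k))) : ℝ) : ℂ) * (Complex.I * ee (1 / 8 - x)) := by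
    have h2 : (1 / 8 - x : ℝ) = (1 / 8 - R * (nk k * H (tk k))) + -((k.1 : ℝ) * c.1 + (k.2 : ℝ) * c.2) := by
      rw [hx]
      ring
    rw [h2, ee_add]
    push_cast
    ring
  have e2 : (Complex.I * ee (1 / 8 - x)).re = cos (2 * π * x - 3 * π / 4) := by
    unfold ee
    rw [Complex.I_mul_re, Complex.exp_ofReal_mul_I_im]
    have h3 : 2 * π * x - 3 * π / 4 = -(2 * π * (1 / 8 - x) + π / 2) := by ring
    rw [h3, cos_neg, cos_add_pi_div_two]
  rw [e1, Complex.re_ofReal_mul, e2, hx]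
  unfold tt ak
  have h4 : (R / nk k) ^ (1 / 2 : ℝ) = sqrt R * nk k ^ (-(1 / 2) : ℝ) := by
    rw [div_rpow hR hn.le, sqrt_eq_rpow, rpow_neg hn.le]
    rfl
  have h5 : nk k ^ (-(3 / 2) : ℝ) = nk k ^ (-(1 / 2) : ℝ) / nk k := by
    rw [show (-(3 / 2) : ℝ) = -(1 / 2) - 1 by norm_num, rpow_sub_one hn.ne']
  rw [h4, h5]
  field_simp

/-- the lattice points with `0 < |k|_∞ < N` -/
noncomputable def LN (N : ℕ) : Finset (ℤ × ℤ) := (box N).filter fun k => k ≠ 0 ∧ sn k < N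

theorem mem_LN {N : ℕ} {k : ℤ × ℤ} : k ∈ LN N ↔ k ≠ 0 ∧ sn k < N := by
  unfold LN
  rw [Finset.mem_filter]
  constructor
  · exact fun h => h.2
  · intro h
    refine ⟨?_, h⟩
    unfold box
    have h1 := h.2
    unfold sn at h1
    rw [max_lt_iff] at h1
    rw [Finset.mem_product, Finset.mem_Icc, Finset.mem_Icc]
    omega

theorem mem_prim {N : ℕ} {k : ℤ × ℤ} : k ∈ prim N ↔ Int.gcd k.1 k.2 = 1 ∧ sn k < N := by
  unfold prim
  rw [Finset.mem_filter]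
  constructor
  · exact fun h => h.2
  · intro h
    refine ⟨?_, h⟩
    unfold box
    have h1 := h.2
    unfold sn at h1
    rw [max_lt_iff] at h1
    rw [Finset.mem_product, Finset.mem_Icc, Finset.mem_Icc]
    omega

private lemma cz_mul (m : ℕ) (k : ℤ × ℤ) : cz ((m : ℤ) * k.1, (m : ℤ) * k.2) = ((m : ℝ) : ℂ) * cz k := by
  unfold cz
  apply Complex.ext <;> simp

private lemma nk_mul (m : ℕ) (k : ℤ × ℤ) : nk ((m : ℤ) * k.1, (m : ℤ) * k.2) = m * nk k := by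
  unfold nk
  rw [cz_mul, norm_mul, Complex.norm_real, Real.norm_of_nonneg (Nat.cast_nonneg m)]

private lemma tk_mul {m : ℕ} (hm : 0 < m) (k : ℤ × ℤ) : tk ((m : ℤ) * k.1, (m : ℤ) * k.2) = tk k := by
  unfold tk
  rw [cz_mul, Complex.arg_real_mul _ (by exact_mod_cast hm)]

private lemma sn_mul (m : ℕ) (k : ℤ × ℤ) : sn ((m : ℤ) * k.1, (m : ℤ) * k.2) = m * sn k := by
  unfold sn
  simp only [Int.natAbs_mul, Int.natAbs_natCast]
  exact (Nat.mul_max_mul_left m _ _)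

private lemma sn_pos {k : ℤ × ℤ} (h : k ≠ 0) : 0 < sn k := by
  unfold sn
  by_contra hn
  have h1 : max k.1.natAbs k.2.natAbs = 0 := by omega
  have h2 : k.1 = 0 := by omega
  have h3 : k.2 = 0 := by omega
  exact h (Prod.ext h2 h3)

/-- grouping by primitive vectors -/
theorem group (H : ℝ → ℝ) (N : ℕ) (R : ℝ) (c : ℝ × ℝ) : ∑ k ∈ LN N, tt H R c k = Mx H N R c := by
  have e1 : Mx H N R c = ∑ k ∈ prim N, ∑ j ∈ Finset.range ((N - 1) / sn k), tt H R c (((j + 1 : ℕ) : ℤ) * k.1, ((j + 1 : ℕ) : ℤ) * k.2) := by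
    unfold Mx fJ
    refine Finset.sum_congr rfl fun k _ => ?_
    rw [Finset.mul_sum, Finset.mul_sum]
    refine Finset.sum_congr rfl fun j _ => ?_
    unfold tt ak
    have hnn : 0 ≤ nk k := norm_nonneg _
    rw [nk_mul, tk_mul (Nat.succ_pos j), mul_rpow (Nat.cast_nonneg (j + 1)) hnn]
    dsimp only
    have h2 : ((j + 1 : ℕ) : ℝ) * (R * (nk k * H (tk k)) + ((k.1 : ℝ) * c.1 + (k.2 : ℝ) * c.2)) =
        R * (((j + 1 : ℕ) : ℝ) * nk k * H (tk k)) + (((((j + 1 : ℕ) : ℤ) * k.1 : ℤ) : ℝ) * c.1 + ((((j + 1 : ℕ) : ℤ) * k.2 : ℤ) : ℝ) * c.2) := by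
      push_cast
      ring
    rw [h2]
    ring
  rw [e1, Finset.sum_sigma']
  symm
  refine Finset.sum_nbij' (fun s => (((s.2 + 1 : ℕ) : ℤ) * s.1.1, ((s.2 + 1 : ℕ) : ℤ) * s.1.2))
    (fun k => ⟨(k.1 / (Int.gcd k.1 k.2 : ℤ), k.2 / (Int.gcd k.1 k.2 : ℤ)), Int.gcd k.1 k.2 - 1⟩) ?_ ?_ ?_ ?_ ?_
  · rintro ⟨k, j⟩ hs
    rw [Finset.mem_sigma, mem_prim, Finset.mem_range] at hs
    simp only at hs ⊢
    have hk0 : k ≠ 0 := by
      rintro rfl
      simp at hs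
    have hsn := sn_pos hk0
    rw [mem_LN, sn_mul]
    constructor
    · intro h
      have h1 := congrArg Prod.fst h
      have h2 := congrArg Prod.snd h
      simp only [Prod.fst_zero, Prod.snd_zero, mul_eq_zero] at h1 h2
      have h3 : ((j + 1 : ℕ) : ℤ) ≠ 0 := by positivity
      exact hk0 (Prod.ext (h1.resolve_left h3) (h2.resolve_left h3))
    · have h1 : j + 1 ≤ (N - 1) / sn k := hs.2
      rw [Nat.le_div_iff_mul_le hsn] at h1
      have h2 : sn k < N := hs.1.2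
      omega
  · intro k hk
    rw [mem_LN] at hk
    obtain ⟨hk0, hkN⟩ := hk
    have hg : 0 < Int.gcd k.1 k.2 := by
      rw [Int.gcd_pos_iff]
      by_contra h
      push Not at h
      exact hk0 (Prod.ext h.1 h.2)
    have d1 : (Int.gcd k.1 k.2 : ℤ) * (k.1 / (Int.gcd k.1 k.2 : ℤ)) = k.1 := Int.mul_ediv_cancel' (Int.gcd_dvd_left ..)
    have d2 : (Int.gcd k.1 k.2 : ℤ) * (k.2 / (Int.gcd k.1 k.2 : ℤ)) = k.2 := Int.mul_ediv_cancel' (Int.gcd_dvd_right ..)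
    have hsm := sn_mul (Int.gcd k.1 k.2) (k.1 / (Int.gcd k.1 k.2 : ℤ), k.2 / (Int.gcd k.1 k.2 : ℤ))
    simp only at hsm
    rw [d1, d2, Prod.mk.eta] at hsm
    rw [Finset.mem_sigma, mem_prim, Finset.mem_range]
    simp only
    have hprim : Int.gcd (k.1 / (Int.gcd k.1 k.2 : ℤ)) (k.2 / (Int.gcd k.1 k.2 : ℤ)) = 1 := Int.gcd_div_gcd_div_gcd hg
    have hq0 : (k.1 / (Int.gcd k.1 k.2 : ℤ), k.2 / (Int.gcd k.1 k.2 : ℤ)) ≠ (0 : ℤ × ℤ) := by
      intro h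
      have h1 := congrArg Prod.fst h
      have h2 := congrArg Prod.snd h
      simp only [Prod.fst_zero, Prod.snd_zero] at h1 h2
      rw [h1, h2] at hprim
      simp at hprim
    have hsn := sn_pos hq0
    refine ⟨⟨hprim, ?_⟩, ?_⟩
    · refine lt_of_le_of_lt ?_ hkN
      rw [hsm]
      exact Nat.le_mul_of_pos_left _ hg
    · have h1 : Int.gcd k.1 k.2 ≤ (N - 1) / sn (k.1 / (Int.gcd k.1 k.2 : ℤ), k.2 / (Int.gcd k.1 k.2 : ℤ)) := by
        rw [Nat.le_div_iff_mul_le hsn]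
        omega
      omega
  · rintro ⟨k, j⟩ hs
    rw [Finset.mem_sigma, mem_prim, Finset.mem_range] at hs
    simp only at hs ⊢
    have hg : Int.gcd (((j + 1 : ℕ) : ℤ) * k.1) (((j + 1 : ℕ) : ℤ) * k.2) = j + 1 := by
      rw [Int.gcd_mul_left, hs.1.1, mul_one, Int.natAbs_natCast]
    rw [hg]
    have h3 : ((j + 1 : ℕ) : ℤ) ≠ 0 := by positivity
    rw [Int.mul_ediv_cancel_left _ h3, Int.mul_ediv_cancel_left _ h3]
    rfl
  · intro k hk
    rw [mem_LN] at hk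
    obtain ⟨hk0, hkN⟩ := hk
    have hg : 0 < Int.gcd k.1 k.2 := by
      rw [Int.gcd_pos_iff]
      by_contra h
      push Not at h
      exact hk0 (Prod.ext h.1 h.2)
    have d1 : (Int.gcd k.1 k.2 : ℤ) * (k.1 / (Int.gcd k.1 k.2 : ℤ)) = k.1 := Int.mul_ediv_cancel' (Int.gcd_dvd_left ..)
    have d2 : (Int.gcd k.1 k.2 : ℤ) * (k.2 / (Int.gcd k.1 k.2 : ℤ)) = k.2 := Int.mul_ediv_cancel' (Int.gcd_dvd_right ..)
    simp only
    rw [Nat.sub_add_cancel hg, d1, d2]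
  · intro s _
    rfl

/-- the low frequencies -/
theorem low_part {H : ℝ → ℝ} (hH : IsSupp H) {η : ℝ} (hη : 0 < η) : ∃ R₁ : ℝ, 1 ≤ R₁ ∧ ∀ R : ℝ, R₁ ≤ R → ∀ N : ℕ, 1 ≤ N →
    2 * (N : ℝ) ≤ R ^ (1 / 4 : ℝ) → ∀ c : ℝ × ℝ,
    ‖∑ k ∈ (box N).filter (fun k => k ≠ 0 ∧ sn k < N), ft (fun θ => R * H θ) k * ee (-((k.1 : ℝ) * c.1 + (k.2 : ℝ) * c.2)) -
      ((sqrt R * Mx H N R c : ℝ) : ℂ)‖ ≤ η * (sqrt R * (N : ℝ) ^ (1 / 2 : ℝ)) := by
  obtain ⟨C, hC0, hC⟩ := lat_upper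
  obtain ⟨R₁, hR₁, hasy⟩ := hk_asymp hH (η := η / (C + 1)) (by positivity)
  refine ⟨R₁, hR₁, fun R hR N hN hNR c => ?_⟩
  have hR0 : 0 < R := by linarith
  have hp := pi_pos
  have hN1 : (1 : ℝ) ≤ N := by exact_mod_cast hN
  change ‖∑ k ∈ LN N, _ - _‖ ≤ _
  have h0 : ∀ k ∈ LN N, k ≠ 0 := fun k hk => (mem_LN.1 hk).1
  have hs : ∀ k ∈ LN N, -k ∈ LN N := by
    intro k hk
    rw [mem_LN] at hk ⊢
    refine ⟨neg_ne_zero.2 hk.1, ?_⟩
    have h1 : sn (-k) = sn k := by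
      unfold sn
      rw [Prod.fst_neg, Prod.snd_neg, Int.natAbs_neg, Int.natAbs_neg]
    rw [h1]
    exact hk.2
  have hnk : ∀ k ∈ LN N, nk k ≤ 2 * N := by
    intro k hk
    have h1 := (mem_LN.1 hk).2
    unfold sn at h1
    rw [max_lt_iff] at h1
    have h2 : nk k ≤ |(k.1 : ℝ)| + |(k.2 : ℝ)| := Complex.norm_le_abs_re_add_abs_im (cz k)
    have h3 : |(k.1 : ℝ)| ≤ N := by
      have h4 : |k.1| ≤ (N : ℤ) := by
        rw [Int.abs_eq_natAbs]
        exact_mod_cast h1.1.le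
      exact_mod_cast h4
    have h4 : |(k.2 : ℝ)| ≤ N := by
      have h4 : |k.2| ≤ (N : ℤ) := by
        rw [Int.abs_eq_natAbs]
        exact_mod_cast h1.2.le
      exact_mod_cast h4
    linarith
  rw [sum_ft (lo_mul_supp hH hR0) h0 hs c, ← Complex.ofReal_sub, Complex.norm_real, ← group H N R c, Finset.mul_sum, ← Finset.sum_sub_distrib]
  have hterm : ∀ k ∈ LN N, ‖(Complex.I / ((π * nk k : ℝ) : ℂ) * hk (fun θ => R * H θ) k * ee (-((k.1 : ℝ) * c.1 + (k.2 : ℝ) * c.2))).re -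
      sqrt R * tt H R c k‖ ≤ η / (C + 1) * (1 / π * (sqrt R * nk k ^ (-(3 / 2) : ℝ))) := by
    intro k hkL
    have hk0 := h0 k hkL
    have hn : (0 : ℝ) < nk k := by linarith [nk_ge_one hk0]
    rw [← tt_eq H hR0.le c hk0, ← Complex.sub_re, ← sub_mul, ← mul_sub]
    refine (Complex.abs_re_le_norm _).trans ?_
    rw [norm_mul, ee_norm, mul_one, norm_mul, norm_div, Complex.norm_I, Complex.norm_real, Real.norm_of_nonneg (by positivity)]
    have h1 := mul_le_mul_of_nonneg_left (hasy R hR k hk0 ((hnk k hkL).trans hNR)) (show 0 ≤ 1 / (π * nk k) by positivity)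
    refine h1.trans (le_of_eq ?_)
    have h4 : (R / nk k) ^ (1 / 2 : ℝ) = sqrt R * nk k ^ (-(1 / 2) : ℝ) := by
      rw [div_rpow hR0.le hn.le, sqrt_eq_rpow, rpow_neg hn.le]
      rfl
    have h5 : nk k ^ (-(3 / 2) : ℝ) = nk k ^ (-(1 / 2) : ℝ) / nk k := by
      rw [show (-(3 / 2) : ℝ) = -(1 / 2) - 1 by norm_num, rpow_sub_one hn.ne']
    rw [h4, h5]
    field_simp
  refine (norm_sum_le _ _).trans ((Finset.sum_le_sum hterm).trans ?_)
  rw [← Finset.mul_sum, ← Finset.mul_sum, ← Finset.mul_sum]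
  have hsum : ∑ k ∈ LN N, nk k ^ (-(3 / 2) : ℝ) ≤ C * (2 * N : ℝ) ^ (1 / 2 : ℝ) := by
    refine (Finset.sum_le_sum_of_subset_of_nonneg ?_ fun k _ _ => ?_).trans (hC (2 * N) (by linarith))
    · intro k hk
      rw [mem_kset]
      exact ⟨h0 k hk, hnk k hk⟩
    · exact rpow_nonneg (norm_nonneg _) _
  have h2 : (2 * N : ℝ) ^ (1 / 2 : ℝ) ≤ 2 * (N : ℝ) ^ (1 / 2 : ℝ) := by
    rw [mul_rpow (by norm_num) (Nat.cast_nonneg N)]
    have h3 : (2 : ℝ) ^ (1 / 2 : ℝ) ≤ 2 ^ (1 : ℝ) := rpow_le_rpow_of_exponent_le (by norm_num) (by norm_num)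
    rw [rpow_one] at h3
    exact mul_le_mul_of_nonneg_right h3 (by positivity)
  have h3 : 1 / π ≤ 1 / 2 := by
    have := pi_gt_three
    exact one_div_le_one_div_of_le (by norm_num) (by linarith)
  have h4 : ∑ k ∈ LN N, nk k ^ (-(3 / 2) : ℝ) ≤ C * (2 * (N : ℝ) ^ (1 / 2 : ℝ)) := hsum.trans (mul_le_mul_of_nonneg_left h2 hC0)
  have hS0 : 0 ≤ ∑ k ∈ LN N, nk k ^ (-(3 / 2) : ℝ) := Finset.sum_nonneg fun k _ => rpow_nonneg (norm_nonneg _) _
  have hsR : 0 ≤ sqrt R := sqrt_nonneg R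
  have hNh : 0 ≤ (N : ℝ) ^ (1 / 2 : ℝ) := by positivity
  have h5 : sqrt R * ∑ k ∈ LN N, nk k ^ (-(3 / 2) : ℝ) ≤ sqrt R * (C * (2 * (N : ℝ) ^ (1 / 2 : ℝ))) := mul_le_mul_of_nonneg_left h4 hsR
  have h6 : 1 / π * (sqrt R * ∑ k ∈ LN N, nk k ^ (-(3 / 2) : ℝ)) ≤ 1 / 2 * (sqrt R * (C * (2 * (N : ℝ) ^ (1 / 2 : ℝ)))) :=
    mul_le_mul h3 h5 (mul_nonneg hsR hS0) (by norm_num)
  have hη' : 0 ≤ η / (C + 1) := by positivity
  refine (mul_le_mul_of_nonneg_left h6 hη').trans ?_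
  have h7 : η / (C + 1) * (1 / 2 * (sqrt R * (C * (2 * (N : ℝ) ^ (1 / 2 : ℝ))))) = (C / (C + 1)) * (η * (sqrt R * (N : ℝ) ^ (1 / 2 : ℝ))) := by
    field_simp
  rw [h7]
  have h8 : C / (C + 1) ≤ 1 := by
    rw [div_le_one (by linarith)]
    linarith
  have h9 : 0 ≤ η * (sqrt R * (N : ℝ) ^ (1 / 2 : ℝ)) := by positivity
  calc C / (C + 1) * (η * (sqrt R * (N : ℝ) ^ (1 / 2 : ℝ))) ≤ 1 * (η * (sqrt R * (N : ℝ) ^ (1 / 2 : ℝ))) := mul_le_mul_of_nonneg_right h8 h9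
    _ = _ := one_mul _

end Pool.Agent.Helper41.EX
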